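import Pool.Agent.H300R2.FB.FullLam

/-!
Chowla's conjecture for the Liouville function at the values of almost all polynomials of degree
`j` and height at most `H`, for all lengths between `H^ε` and `H / (log H)^B`.
-/

set_option autoImplicit false

namespace Pool.Agent.Results.MP_892e4c_nt.FullHeight

open Finset Polynomial

/-- the Liouville function on the integers, `λ(-m) = λ(m)`, `λ(0) = 0` -/
noncomputable def lam (m : ℤ) : ℝ :=
  if m = 0 then 0 else (-1 : ℝ) ^ (ArithmeticFunction.cardFactors m.natAbs)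

lemma lam_eq (m : ℤ) : Pool.Agent.H300R2.FB.lam0 m.natAbs = lam m := by
  unfold Pool.Agent.H300R2.FB.lam0 lam
  by_cases h : m = 0
  · rw [if_pos h, if_pos (by rw [h]; rfl)]
  · rw [if_neg h, if_neg (by omega)]

/-- **Chowla's conjecture for almost all polynomials of height at most `H`.** Let `j ≥ 1`, `ε > 0`
and `U` be given, and let `B` and `H` be large in terms of these. There is a set `T` of at most
`H^(j+1) / (log H)^U` polynomials such that for all integer polynomials `F` of degree `j` with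
coefficients bounded by `H` in absolute value, `F ∉ T`, and for ALL `K` with
`H^ε ≤ K ≤ H / (log H)^B`, `|∑_{n ≤ K} λ(F(n))| ≤ K / (log H)^U`. -/
theorem result (j : ℕ) (hj : 1 ≤ j) (ε : ℝ) (hε : 0 < ε) (U : ℕ) :
    ∃ B H0 : ℕ, ∀ H : ℕ, H0 ≤ H → ∃ T : Finset ℤ[X],
    (T.card : ℝ) ≤ (H : ℝ) ^ (j + 1) / Real.log H ^ U ∧
    ∀ F : ℤ[X], F.natDegree = j → (∀ i, |F.coeff i| ≤ H) → F ∉ T →
    ∀ K : ℕ, (H : ℝ) ^ ε ≤ K → (K : ℝ) * Real.log H ^ B ≤ H →
    |∑ n ∈ Icc 1 K, lam (F.eval (n : ℤ))| ≤ K / Real.log H ^ U := by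
  have h := Pool.Agent.H300R2.FB.full_g Pool.Agent.H300R2.FB.lam0 Pool.Agent.H300R2.FB.lam0_le
    Pool.Agent.H300R2.FB.lam0_swf j hj ε hε U
  simp only [lam_eq] at h
  exact h

end Pool.Agent.Results.MP_892e4c_nt.FullHeight
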