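import Mathlib
import Pool.Agent.H304R2.Lam

set_option autoImplicit false

/-- For every monic quadratic polynomial `f(n) = n ^ 2 + b * n + c` with integer coefficients whose
discriminant is not a square, every sign `s` and every `ε > 0`, for all large `N` there are at
least `N ^ (1 - ε)` integers `n` with `1 ≤ n ≤ N` and `λ(f(n)) = s`. -/
theorem Pool.Agent.Results.MP_892e4c_nt.MonicQuadratic.result (b c : ℤ)
    (hD : ¬ IsSquare (b ^ 2 - 4 * c)) (s : ℤ) (hs : s = 1 ∨ s = -1) (ε : ℝ) (hε : 0 < ε) :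
    ∃ N₀ : ℕ, ∀ N : ℕ, N₀ ≤ N → (N : ℝ) ^ (1 - ε) ≤
      (((Finset.Icc 1 N).filter (fun n : ℕ =>
        (-1 : ℤ) ^ (ArithmeticFunction.cardFactors ((n : ℤ) ^ 2 + b * n + c).natAbs) = s)).card : ℝ) :=
  Pool.Agent.H304R2.main_lam b c hD s hs ε hε
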