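import Mathlib
import Pool.Agent.H310R2.QuadPeriod6

set_option autoImplicit false
open Polynomial

namespace Pool.Agent.Results.MP_892e4c_nt.QuadraticShiftProducts

open Pool.Agent.H310R2.MonicQuad

lemma lam_prod {α : Type*} (T : Finset α) (v : α → ℤ) :
    lam (∏ t ∈ T, v t).natAbs = ∏ t ∈ T, lam (v t).natAbs := by
  classical
  induction T using Finset.induction_on with
  | empty => simp [lam]
  | insert a s ha ih => rw [Finset.prod_insert ha, Finset.prod_insert ha, Int.natAbs_mul, lam_mul, ih]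

lemma eq_neg_of_ne (a ε : ℤ) (h1 : a = 1 ∨ a = -1) (h2 : ε = 1 ∨ ε = -1) (h : a ≠ ε) :
    a = -ε := by
  omega

/-- Let `T` be a nonempty finite set of pairs `(b, c)` with the same nonzero value `D` of
`b² - 4c`, and let `f = c₀ g² ∏ (X² + b X + c)`, `c₀ ≠ 0`, `g ≠ 0`. Then the Liouville function
takes each of the values `1` and `-1` at `|f(n)|` for infinitely many positive integers `n`
(with `f(n) ≠ 0`). -/
theorem result (D : ℤ) (hD : D ≠ 0) (T : Finset (ℤ × ℤ)) (hT : T.Nonempty)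
    (hTD : ∀ t ∈ T, t.1 ^ 2 - 4 * t.2 = D) (c₀ : ℤ) (hc₀ : c₀ ≠ 0) (g f : ℤ[X]) (hg : g ≠ 0)
    (hf : f = C c₀ * g ^ 2 * ∏ t ∈ T, (X ^ 2 + C t.1 * X + C t.2))
    (ε : ℤ) (hε : ε = 1 ∨ ε = -1) :
    {n : ℕ | f.eval (n : ℤ) ≠ 0 ∧
      (-1 : ℤ) ^ (ArithmeticFunction.cardFactors (f.eval (n : ℤ)).natAbs) = ε}.Infinite := by
  classical
  by_contra hcon
  rw [Set.not_infinite] at hcon
  obtain ⟨B, hB⟩ := hcon.bddAbove
  have hfin : {n : ℤ | g.IsRoot n}.Finite := Polynomial.finite_setOfPred_isRoot hg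
  obtain ⟨M, hM⟩ := hfin.bddAbove
  have hgn : ∀ n : ℤ, M < n → g.eval n ≠ 0 := by
    intro n hn h0
    exact absurd (hM (show n ∈ {n : ℤ | g.IsRoot n} from h0)) (not_le.mpr hn)
  have hcl : lam c₀.natAbs = 1 ∨ lam c₀.natAbs = -1 := lam_val _ (Int.natAbs_pos.mpr hc₀)
  set K : ℤ := ∑ t ∈ T, (|t.1| + |t.2| + 1) with hK
  have hK0 : 0 ≤ K := Finset.sum_nonneg (fun t _ => by positivity)
  have hKt : ∀ t ∈ T, |t.1| + |t.2| + 1 ≤ K := fun t ht =>
    Finset.single_le_sum (f := fun t : ℤ × ℤ => |t.1| + |t.2| + 1)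
      (fun t _ => by positivity) ht
  refine shifts_not_const D hD T hT hTD (lam c₀.natAbs * (-ε)) (K + |M| + B + 1) (fun n hn => ?_)
  have hM1 := le_abs_self M
  have hM2 := abs_nonneg M
  have hB0 : (0 : ℤ) ≤ B := by positivity
  obtain ⟨m, rfl⟩ := Int.eq_ofNat_of_zero_le (show 0 ≤ n by linarith)
  have hFt : ∀ t ∈ T, F t.1 t.2 (m : ℤ) 1 ≠ 0 := by
    intro t ht
    have h1 := hKt t ht
    have h2 := abs_nonneg t.1
    have h3 := abs_nonneg t.2
    exact (F_pos t.1 t.2 m 1 zero_le_one (by linarith) (by linarith)).ne'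
  have hprod0 : (∏ t ∈ T, F t.1 t.2 (m : ℤ) 1) ≠ 0 := Finset.prod_ne_zero_iff.mpr hFt
  have hG0 : g.eval (m : ℤ) ≠ 0 := hgn _ (by linarith)
  have hev : f.eval (m : ℤ) = c₀ * (g.eval (m : ℤ)) ^ 2 * ∏ t ∈ T, F t.1 t.2 (m : ℤ) 1 := by
    rw [hf]
    simp only [eval_mul, eval_C, eval_pow, eval_prod, eval_add, eval_X, F]
    congr 1
    refine Finset.prod_congr rfl (fun t _ => ?_)
    ring
  have hne : f.eval (m : ℤ) ≠ 0 := by
    rw [hev]
    exact mul_ne_zero (mul_ne_zero hc₀ (pow_ne_zero 2 hG0)) hprod0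
  have hnot : (-1 : ℤ) ^ (ArithmeticFunction.cardFactors (f.eval (m : ℤ)).natAbs) ≠ ε := by
    intro h0
    have h1 := hB (show m ∈ {n : ℕ | f.eval (n : ℤ) ≠ 0 ∧
      (-1 : ℤ) ^ (ArithmeticFunction.cardFactors (f.eval (n : ℤ)).natAbs) = ε} from ⟨hne, h0⟩)
    have h2 : (m : ℤ) ≤ B := by exact_mod_cast h1
    linarith
  have hval : lam (f.eval (m : ℤ)).natAbs = -ε := by
    have h1 : lam (f.eval (m : ℤ)).natAbs =
        (-1 : ℤ) ^ (ArithmeticFunction.cardFactors (f.eval (m : ℤ)).natAbs) := by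
      unfold lam
      rw [if_neg (Int.natAbs_ne_zero.mpr hne)]
    rw [← h1] at hnot
    exact eq_neg_of_ne _ _ (lam_val _ (Int.natAbs_pos.mpr hne)) hε hnot
  have hgg : lam (g.eval (m : ℤ)).natAbs * lam (g.eval (m : ℤ)).natAbs = 1 := by
    rcases lam_val _ (Int.natAbs_pos.mpr hG0) with h | h <;> rw [h] <;> norm_num
  rw [hev, Int.natAbs_mul, Int.natAbs_mul, lam_mul, lam_mul, Int.natAbs_pow, sq, lam_mul, hgg,
    mul_one, lam_prod] at hval
  change ∏ t ∈ T, lam (F t.1 t.2 (m : ℤ) 1).natAbs = _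
  rw [← hval]
  rcases hcl with h | h <;> rw [h] <;> ring

end Pool.Agent.Results.MP_892e4c_nt.QuadraticShiftProducts
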