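import Mathlib
import Pool.Agent.H905R2.LamF

set_option autoImplicit false

open Polynomial

/-- Liouville's function at Shanks' simplest cubics `f_a(X) = X^3 - a X^2 - (a+3) X - 1`, `a ∈ ℤ`, where
`λ(m) = (-1)^Ω(|m|)`.
* `f_a` is irreducible;
* for every `N ≥ 0` there are `n ∈ (N, B]` and `n ∈ [-B, -N)`, `B = (N+2|a|+20)^4`, with `λ(f_a(n)) = 1`;
* if `λ(f_a(n₀)) = -1` for one integer `n₀`, then for every `N ≥ |n₀|` there are `n ∈ (N, B]` and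
  `n ∈ [-B, -N)` with `λ(f_a(n)) = -1`.  So either `λ(f_a(n)) = 1` for *all* integers `n`, or
  `λ(f_a(n))` changes sign infinitely often both as `n → +∞` and as `n → -∞`;
* such an `n₀` exists, with `|n₀| ≤ 60`, for every `|a| ≤ 1000`. -/
theorem Pool.Agent.Results.MP_892e4c_nt.SimplestCubics.result (a : ℤ) :
    Irreducible (X ^ 3 - C a * X ^ 2 - C (a + 3) * X - 1 : ℤ[X]) ∧
    (∀ N : ℤ, 0 ≤ N →
      (∃ n : ℤ, N < n ∧ n ≤ (N + 2 * |a| + 20) ^ 4 ∧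
        (-1 : ℤ) ^ (ArithmeticFunction.cardFactors
          (n ^ 3 - a * n ^ 2 - (a + 3) * n - 1).natAbs) = 1) ∧
      (∃ n : ℤ, n < -N ∧ -(N + 2 * |a| + 20) ^ 4 ≤ n ∧
        (-1 : ℤ) ^ (ArithmeticFunction.cardFactors
          (n ^ 3 - a * n ^ 2 - (a + 3) * n - 1).natAbs) = 1)) ∧
    (∀ n₀ : ℤ,
      (-1 : ℤ) ^ (ArithmeticFunction.cardFactors
        (n₀ ^ 3 - a * n₀ ^ 2 - (a + 3) * n₀ - 1).natAbs) = -1 →
      ∀ N : ℤ, |n₀| ≤ N →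
      (∃ n : ℤ, N < n ∧ n ≤ (N + 2 * |a| + 20) ^ 4 ∧
        (-1 : ℤ) ^ (ArithmeticFunction.cardFactors
          (n ^ 3 - a * n ^ 2 - (a + 3) * n - 1).natAbs) = -1) ∧
      (∃ n : ℤ, n < -N ∧ -(N + 2 * |a| + 20) ^ 4 ≤ n ∧
        (-1 : ℤ) ^ (ArithmeticFunction.cardFactors
          (n ^ 3 - a * n ^ 2 - (a + 3) * n - 1).natAbs) = -1)) ∧
    (|a| ≤ 1000 → ∃ n₀ : ℤ, |n₀| ≤ 60 ∧
      (-1 : ℤ) ^ (ArithmeticFunction.cardFactors
        (n₀ ^ 3 - a * n₀ ^ 2 - (a + 3) * n₀ - 1).natAbs) = -1) := by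
  open Pool.Agent.H905R2.Lam in
  refine ⟨irred a, ?_, ?_, ?_⟩
  · intro N hN
    exact plus a hN
  · intro n₀ hw N hN
    exact minus (a := a) (n0 := n₀) hw hN
  · intro ha
    rw [abs_le] at ha
    exact witness a ha.1 ha.2
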